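import Mathlib
import Pool.Agent.Helper93.TP.Defs2

/-!
TP-4b: the Hilbert function of triple points as the rank of the inverse system.
-/

namespace Pool.Agent.Helper93.TP

open MvPolynomial Module

section Pairing

variable {σ : Type*} [Fintype σ]

/-- The apolar pairing. -/
noncomputable def brPair (σ : Type*) [Fintype σ] :
    MvPolynomial σ ℂ →ₗ[ℂ] MvPolynomial σ ℂ →ₗ[ℂ] ℂ :=
  (basisMonomials σ ℂ).constr ℂ
    (fun α => ((∏ i, (α i).factorial : ℕ) : ℂ) • lcoeff ℂ α)

theorem brPair_monomial (α : σ →₀ ℕ) (a : ℂ) (g : MvPolynomial σ ℂ) :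
    brPair σ (monomial α a) g = a * (((∏ i, (α i).factorial : ℕ) : ℂ) * coeff α g) := by
  have h1 : monomial α a = a • (basisMonomials σ ℂ α : MvPolynomial σ ℂ) := by
    rw [coe_basisMonomials, smul_monomial, smul_eq_mul, mul_one]
  rw [h1, map_smul, brPair, Basis.constr_basis]
  rfl

/-- Multiplication by a variable is adjoint to the derivative. -/
theorem brPair_X_mul (f g : MvPolynomial σ ℂ) (i : σ) :
    brPair σ f (X i * g) = brPair σ (pderiv i f) g := by
  classical
  induction f using MvPolynomial.induction_on' with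
  | monomial α a =>
    rw [pderiv_monomial, brPair_monomial, brPair_monomial, coeff_X_mul']
    by_cases h : α i = 0
    · have h2 : i ∉ α.support := by simpa using h
      rw [if_neg h2, h]
      simp
    · have h2 : i ∈ α.support := by simpa using h
      rw [if_pos h2]
      have h3 : (∏ j, (α j).factorial : ℕ) =
          α i * ∏ j, ((α - Finsupp.single i 1 : σ →₀ ℕ) j).factorial := by
        rw [Fintype.prod_eq_mul_prod_compl i, Fintype.prod_eq_mul_prod_compl i, ← mul_assoc]
        congr 1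
        · simp only [Finsupp.coe_tsub, Pi.sub_apply, Finsupp.single_eq_same]
          exact (Nat.mul_factorial_pred h).symm
        · refine Finset.prod_congr rfl fun j hj => ?_
          have hj : j ≠ i := by simpa using hj
          simp [Finsupp.coe_tsub, hj.symm]
      rw [h3]
      push_cast
      ring
  | add p q hp hq =>
    rw [map_add, map_add, LinearMap.add_apply, hp, hq, map_add, LinearMap.add_apply]

theorem brPair_pow (P : σ → ℂ) (m : ℕ) : ∀ f : MvPolynomial σ ℂ, f.IsHomogeneous m →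
    brPair σ f (lf P ^ m) = (m.factorial : ℂ) * eval P f := by
  induction m with
  | zero =>
    intro f hf
    rw [← totalDegree_zero_iff_isHomogeneous, totalDegree_eq_zero_iff_eq_C] at hf
    rw [hf, pow_zero, eval_C, C_apply, brPair_monomial]
    simp
  | succ m ih =>
    intro f hf
    have h1 : lf P ^ (m + 1) = ∑ i, P i • (X i * lf P ^ m) := by
      rw [pow_succ', lf, Finset.sum_mul]
      refine Finset.sum_congr rfl fun i _ => ?_
      rw [smul_mul_assoc]
    rw [h1, map_sum]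
    have h2 : ∀ i, brPair σ f (P i • (X i * lf P ^ m)) =
        (m.factorial : ℂ) * (P i * eval P (pderiv i f)) := by
      intro i
      rw [map_smul, brPair_X_mul, ih _ hf.pderiv, smul_eq_mul]
      ring
    rw [Finset.sum_congr rfl fun i _ => h2 i, ← Finset.mul_sum]
    have h3 := congrArg (eval P) hf.sum_X_mul_pderiv
    rw [map_sum] at h3
    simp only [map_mul, eval_X, nsmul_eq_mul, map_natCast] at h3
    rw [h3, Nat.factorial_succ]
    push_cast
    ring

theorem brPair_ker {d : ℕ} {g : MvPolynomial σ ℂ} (hg : g ∈ homogeneousSubmodule σ ℂ d)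
    (h : ∀ f ∈ homogeneousSubmodule σ ℂ d, brPair σ f g = 0) : g = 0 := by
  ext α
  rw [coeff_zero]
  by_contra hne
  have hdeg : (monomial α (1 : ℂ)) ∈ homogeneousSubmodule σ ℂ d := by
    apply isHomogeneous_monomial
    by_contra hd
    have hg' : g.IsHomogeneous d := hg
    exact hne (hg'.coeff_eq_zero hd)
  have h1 := h _ hdeg
  rw [brPair_monomial, one_mul] at h1
  rcases mul_eq_zero.1 h1 with h2 | h2
  · rw [Nat.cast_eq_zero, Finset.prod_eq_zero_iff] at h2
    obtain ⟨i, _, h3⟩ := h2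
    exact Nat.factorial_ne_zero _ h3
  · exact hne h2

theorem brPair_pow_mul_X_X (P : σ → ℂ) {d : ℕ} (hd : 2 ≤ d) {f : MvPolynomial σ ℂ}
    (hf : f.IsHomogeneous d) (i j : σ) :
    brPair σ f (lf P ^ (d - 2) * (X i * X j)) =
      ((d - 2).factorial : ℂ) * eval P (pderiv i (pderiv j f)) := by
  have h1 : lf P ^ (d - 2) * (X i * X j) = X j * (X i * lf P ^ (d - 2)) := by ring
  rw [h1, brPair_X_mul, brPair_X_mul, brPair_pow]
  have h2 := (hf.pderiv (i := j)).pderiv (i := i)
  have h3 : d - 1 - 1 = d - 2 := by omega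
  rwa [h3] at h2

omit [Fintype σ] in
/-- quadratic forms are spanned by the products of two variables -/
theorem br_quad : homogeneousSubmodule σ ℂ 2 =
    Submodule.span ℂ (Set.range fun p : σ × σ => (X p.1 * X p.2 : MvPolynomial σ ℂ)) := by
  rw [← homogeneousSubmodule_one_pow, homogeneousSubmodule_one_eq_span_X, pow_two,
    Submodule.span_mul_span]
  congr 1
  ext q
  constructor
  · rintro ⟨_, ⟨i, rfl⟩, _, ⟨j, rfl⟩, rfl⟩
    exact ⟨(i, j), rfl⟩
  · rintro ⟨⟨i, j⟩, rfl⟩
    exact ⟨_, ⟨i, rfl⟩, _, ⟨j, rfl⟩, rfl⟩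

theorem br_quad_iff (P : σ → ℂ) {d : ℕ} (hd : 2 ≤ d) {f : MvPolynomial σ ℂ}
    (hf : f.IsHomogeneous d) :
    (∀ i j, eval P (pderiv i (pderiv j f)) = 0) ↔
      ∀ q ∈ homogeneousSubmodule σ ℂ 2, brPair σ f (lf P ^ (d - 2) * q) = 0 := by
  constructor
  · intro h q hq
    rw [br_quad] at hq
    induction hq using Submodule.span_induction with
    | mem q hq =>
      obtain ⟨⟨i, j⟩, rfl⟩ := hq
      rw [brPair_pow_mul_X_X P hd hf, h, mul_zero]
    | zero => rw [mul_zero, map_zero]
    | add q q' _ _ h1 h2 => rw [mul_add, map_add, h1, h2, add_zero]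
    | smul c q _ h1 => rw [mul_smul_comm, map_smul, h1, smul_zero]
  · intro h i j
    have h1 := h (X i * X j) ((isHomogeneous_X ℂ i).mul (isHomogeneous_X ℂ j))
    rw [brPair_pow_mul_X_X P hd hf] at h1
    rcases mul_eq_zero.1 h1 with h2 | h2
    · exact absurd h2 (by exact_mod_cast Nat.factorial_ne_zero _)
    · exact h2

/-- the second derivatives control the lower ones -/
theorem br_euler (P : σ → ℂ) {d : ℕ} (hd : 2 ≤ d) {f : MvPolynomial σ ℂ}
    (hf : f.IsHomogeneous d) (h : ∀ i j, eval P (pderiv i (pderiv j f)) = 0) :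
    (∀ i, eval P (pderiv i f) = 0) ∧ eval P f = 0 := by
  have h1 : ∀ j, eval P (pderiv j f) = 0 := by
    intro j
    have h2 := congrArg (eval P) (hf.pderiv (i := j)).sum_X_mul_pderiv
    rw [map_sum] at h2
    simp only [map_mul, eval_X, nsmul_eq_mul, map_natCast, h, mul_zero,
      Finset.sum_const_zero] at h2
    rcases mul_eq_zero.1 h2.symm with h3 | h3
    · rw [Nat.cast_eq_zero] at h3
      omega
    · exact h3
  refine ⟨h1, ?_⟩
  have h2 := congrArg (eval P) hf.sum_X_mul_pderiv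
  rw [map_sum] at h2
  simp only [map_mul, eval_X, nsmul_eq_mul, map_natCast, h1, mul_zero,
    Finset.sum_const_zero] at h2
  rcases mul_eq_zero.1 h2.symm with h3 | h3
  · rw [Nat.cast_eq_zero] at h3
    omega
  · exact h3

theorem br_W_le {d r : ℕ} (hd : 2 ≤ d) (B : Fin r → σ → ℂ) :
    W d B ≤ homogeneousSubmodule σ ℂ d := by
  unfold W
  refine iSup_le fun k => ?_
  rintro _ ⟨q, hq, rfl⟩
  have h1 : (lf (B k)).IsHomogeneous 1 := by
    unfold lf
    refine IsHomogeneous.sum _ _ _ fun i _ => ?_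
    rw [smul_eq_C_mul]
    have := (isHomogeneous_C σ (B k i)).mul (isHomogeneous_X ℂ i)
    simpa using this
  have h2 := (h1.pow (d - 2)).mul hq
  have h3 : 1 * (d - 2) + 2 = d := by omega
  rw [h3] at h2
  exact h2

theorem br_W_eq_span {d r : ℕ} (B : Fin r → σ → ℂ) :
    W d B = Submodule.span ℂ (Set.range fun p : Fin r × (σ × σ) =>
      (lf (B p.1) ^ (d - 2) * (X p.2.1 * X p.2.2) : MvPolynomial σ ℂ)) := by
  unfold W
  rw [br_quad]
  simp_rw [Submodule.map_span]
  rw [← Submodule.span_iUnion]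
  congr 1
  ext q
  simp only [Set.mem_iUnion, Set.mem_image, Set.mem_range, Prod.exists,
    LinearMap.mulLeft_apply]
  constructor
  · rintro ⟨k, _, ⟨i, j, rfl⟩, rfl⟩
    exact ⟨k, i, j, rfl⟩
  · rintro ⟨k, i, j, rfl⟩
    exact ⟨k, _, ⟨i, j, rfl⟩, rfl⟩

end Pairing

/-- The statement of TP-4a -/
def Stmt4a : Prop := ∀ {n d : ℕ} {P : Fin (n + 1) → ℂ} (_ : P ≠ 0)
    {f : MvPolynomial (Fin (n + 1)) ℂ} (_ : f ∈ homogeneousSubmodule (Fin (n + 1)) ℂ d),
    f ∈ ptIdeal P ^ 3 ↔ ∀ i j, eval P (pderiv i (pderiv j f)) = 0 ∧ eval P (pderiv i f) = 0 ∧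
      eval P f = 0

theorem br_hilb (h4a : Stmt4a) {n r d : ℕ} (hd : 2 ≤ d) (Y : Fin r → Fin (n + 1) → ℂ)
    (hY : ∀ k, Y k ≠ 0) : hilb (symPow Y 3) d = finrank ℂ (W d Y) := by
  set S := homogeneousSubmodule (Fin (n + 1)) ℂ d with hS
  have : FiniteDimensional ℂ S := (Submodule.fg_iff_finiteDimensional S).1
    (homogeneousSubmodule_fg _ _ d)
  set I := symPow Y 3 with hI
  set g : S →ₗ[ℂ] (MvPolynomial (Fin (n + 1)) ℂ ⧸ I) :=
    (Ideal.Quotient.mkₐ ℂ I).toLinearMap ∘ₗ S.subtype with hg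
  have h1 : hilb I d = finrank ℂ (LinearMap.range g) := by
    unfold hilb
    rw [hg, LinearMap.range_comp, Submodule.range_subtype]
  set W' : Submodule ℂ S := (W d Y).comap S.subtype with hW'
  have h2 : finrank ℂ W' = finrank ℂ (W d Y) :=
    (Submodule.comapSubtypeEquivOfLe (br_W_le hd Y)).finrank_eq
  set B : LinearMap.BilinForm ℂ S :=
    ((brPair (Fin (n + 1))).flip.domRestrict₁₂ S S) with hB
  have hBapp : ∀ w f : S, B w f = brPair (Fin (n + 1)) (f : MvPolynomial (Fin (n + 1)) ℂ) w := by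
    intro w f
    rfl
  have hker : LinearMap.ker B = ⊥ := by
    rw [LinearMap.ker_eq_bot']
    intro w hw
    apply Subtype.ext
    refine brPair_ker w.2 fun f hf => ?_
    have h3 := LinearMap.congr_fun hw ⟨f, hf⟩
    rw [hBapp] at h3
    exact h3
  have hort : B.orthogonal W' = LinearMap.ker g := by
    ext f
    rw [LinearMap.BilinForm.mem_orthogonal_iff, LinearMap.mem_ker]
    have h3 : g f = 0 ↔ (f : MvPolynomial (Fin (n + 1)) ℂ) ∈ I := by
      rw [hg]
      exact Ideal.Quotient.eq_zero_iff_mem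
    have h4 : (f : MvPolynomial (Fin (n + 1)) ℂ) ∈ I ↔
        ∀ k, ∀ q ∈ homogeneousSubmodule (Fin (n + 1)) ℂ 2,
          brPair (Fin (n + 1)) (f : MvPolynomial (Fin (n + 1)) ℂ) (lf (Y k) ^ (d - 2) * q) = 0 := by
      rw [hI, symPow, Ideal.mem_iInf]
      refine forall_congr' fun k => ?_
      rw [h4a (hY k) f.2, ← br_quad_iff (Y k) hd f.2]
      constructor
      · intro h i j
        exact (h i j).1
      · intro h i j
        have h5 := br_euler (Y k) hd f.2 h
        exact ⟨h i j, h5.1 i, h5.2⟩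
    rw [h3, h4]
    constructor
    · intro h k q hq
      have hmem : lf (Y k) ^ (d - 2) * q ∈ W d Y := by
        unfold W
        exact Submodule.mem_iSup_of_mem k ⟨q, hq, rfl⟩
      exact h ⟨_, br_W_le hd Y hmem⟩ hmem
    · intro h w hw
      show B w f = 0
      rw [hBapp]
      have hw' : (w : MvPolynomial (Fin (n + 1)) ℂ) ∈ W d Y := hw
      have h6 : W d Y ≤ LinearMap.ker
          (brPair (Fin (n + 1)) (f : MvPolynomial (Fin (n + 1)) ℂ)) := by
        unfold W
        refine iSup_le fun k => ?_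
        rintro _ ⟨q, hq, rfl⟩
        exact h k q hq
      exact h6 hw'
  have h5 := LinearMap.BilinForm.finrank_add_finrank_orthogonal' (B := B) W'
  rw [hker, inf_bot_eq, finrank_bot, add_zero, hort] at h5
  have h6 := LinearMap.finrank_range_add_finrank_ker g
  rw [h1, ← h2]
  omega

theorem br_rk_bound {n r d : ℕ} (hd : 2 ≤ d) (B : Fin r → Fin (n + 1) → ℂ) :
    finrank ℂ (W d B) ≤ finrank ℂ (homogeneousSubmodule (Fin (n + 1)) ℂ d) := by
  have : FiniteDimensional ℂ (homogeneousSubmodule (Fin (n + 1)) ℂ d) :=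
    (Submodule.fg_iff_finiteDimensional _).1 (homogeneousSubmodule_fg _ _ d)
  exact Submodule.finrank_mono (br_W_le hd B)

theorem br_gen_rank {n r d : ℕ} (hd : 2 ≤ d) :
    Gen (fun B : Fin r → Fin (n + 1) → ℂ =>
      finrank ℂ (W d B) = rk (Fin (n + 1)) d r) := by
  have hne : (Set.range fun B : Fin r → Fin (n + 1) → ℂ => finrank ℂ (W d B)).Nonempty :=
    Set.range_nonempty _
  have hbdd : BddAbove (Set.range fun B : Fin r → Fin (n + 1) → ℂ => finrank ℂ (W d B)) := by
    refine ⟨finrank ℂ (homogeneousSubmodule (Fin (n + 1)) ℂ d), ?_⟩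
    rintro _ ⟨B, rfl⟩
    exact br_rk_bound hd B
  obtain ⟨B₀, hB₀⟩ := Nat.sSup_mem hne hbdd
  have h1 := gen_finrank_span (E := Fin r → Fin (n + 1) → ℂ)
    (T := MvPolynomial (Fin (n + 1)) ℂ) (J := Fin r × (Fin (n + 1) × Fin (n + 1)))
    (u := fun p B => lf (B p.1) ^ (d - 2) * (X p.2.1 * X p.2.2)) ?_ B₀
  · refine h1.mono fun B hB => ?_
    rw [← br_W_eq_span, ← br_W_eq_span] at hB
    refine le_antisymm (le_csSup hbdd ⟨B, rfl⟩) ?_
    refine le_trans (le_of_eq ?_) hB
    exact hB₀.symm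
  · intro p
    refine PolyMap.mul (PolyMap.pow ?_ _) (PolyMap.const _)
    set G : (Fin (n + 1) → ℂ) →ₗ[ℂ] MvPolynomial (Fin (n + 1)) ℂ :=
      { toFun := fun b => lf b
        map_add' := by
          intro b b'
          simp only [lf, Pi.add_apply, add_smul, Finset.sum_add_distrib]
        map_smul' := by
          intro c b
          simp only [lf, Pi.smul_apply, smul_eq_mul, mul_smul, Finset.smul_sum,
            RingHom.id_apply] } with hG
    exact PolyMap.comp (PolyMap.pi_linear G)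
      (LinearMap.proj (R := ℂ) (φ := fun _ : Fin r => Fin (n + 1) → ℂ) p.1)

/-- polynomial functions on the space of `r`-tuples are given by polynomials -/
theorem br_polyFun {n r : ℕ} {φ : (Fin r → Fin (n + 1) → ℂ) → ℂ}
    (hφ : φ ∈ PolyFun (Fin r → Fin (n + 1) → ℂ)) :
    ∃ Φ : MvPolynomial (Fin r × Fin (n + 1)) ℂ, ∀ Y, eval (fun p => Y p.1 p.2) Φ = φ Y := by
  induction hφ using Algebra.adjoin_induction with
  | mem x hx =>
    obtain ⟨l, rfl⟩ := hx
    refine ⟨∑ k, ∑ i, C (l (Pi.single k (Pi.single i 1))) * X (k, i), fun Y => ?_⟩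
    rw [map_sum]
    simp only [map_sum, map_mul, eval_C, eval_X]
    conv_rhs => rw [← Finset.univ_sum_single Y, map_sum]
    refine Finset.sum_congr rfl fun k _ => ?_
    have h1 : (Pi.single k (Y k) : Fin r → Fin (n + 1) → ℂ) =
        ∑ i, Y k i • Pi.single k (Pi.single i 1) := by
      conv_lhs => rw [← Finset.univ_sum_single (Y k)]
      ext k' i'
      by_cases hk : k' = k
      · subst hk
        simp [Finset.sum_apply, Pi.single_apply]
      · simp [Finset.sum_apply, hk]
    rw [h1, map_sum]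
    refine Finset.sum_congr rfl fun i _ => ?_
    rw [map_smul, smul_eq_mul, mul_comm]
  | algebraMap c =>
    exact ⟨C c, fun Y => by rw [eval_C]; rfl⟩
  | add x y _ _ hx hy =>
    obtain ⟨Φ, hΦ⟩ := hx
    obtain ⟨Ψ, hΨ⟩ := hy
    exact ⟨Φ + Ψ, fun Y => by rw [map_add, hΦ, hΨ]; rfl⟩
  | mul x y _ _ hx hy =>
    obtain ⟨Φ, hΦ⟩ := hx
    obtain ⟨Ψ, hΨ⟩ := hy
    exact ⟨Φ * Ψ, fun Y => by rw [map_mul, hΦ, hΨ]; rfl⟩

/-- TP-4b, with the statement of TP-4a as a hypothesis -/
theorem genHilb_three_of (h4a : Stmt4a) {n r d : ℕ} (hd : 2 ≤ d) :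
    GenHilb n r 3 d (rk (Fin (n + 1)) d r) := by
  obtain ⟨φ, hφ, hφ0, hQ⟩ := br_gen_rank (n := n) (r := r) hd
  obtain ⟨Φ, hΦ⟩ := br_polyFun hφ
  refine ⟨Φ * ∏ k : Fin r, X (k, (0 : Fin (n + 1))), ?_, ?_⟩
  · refine mul_ne_zero ?_ ?_
    · intro h
      apply hφ0
      funext Y
      rw [← hΦ Y, h, map_zero]
      rfl
    · rw [Finset.prod_ne_zero_iff]
      intro k _
      exact X_ne_zero _
  · intro Y hY
    rw [map_mul, map_prod] at hY
    have h1 := left_ne_zero_of_mul hY
    have h2 := right_ne_zero_of_mul hY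
    rw [hΦ] at h1
    rw [br_hilb h4a hd Y, hQ Y h1]
    intro k hk
    rw [Finset.prod_ne_zero_iff] at h2
    have h3 := h2 k (Finset.mem_univ k)
    rw [eval_X] at h3
    apply h3
    show Y k 0 = 0
    rw [hk]
    rfl

end Pool.Agent.Helper93.TP
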